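import Pool.Agent.X223.FR.Inst

/-!
Q1 of MP_65f174_lc, negative answer: the transfer fails for every standard fragment with at least
three blocks of quantifiers, even for valued fields with the same residue field `ℂ`.

Take `K = ℂ((t))((s))` with the composite valuation, with value group `ℤ × ℤ` ordered
lexicographically and uniformizer `t`, and `L = ℂ((t))` with value group `ℤ` and uniformizer `t`.
The sentence: there is a finite element `x` of the value group sort such that for all `y` of the
value group sort `x ≠ y + y` and `x ≠ y + y + v(ϖ)`. It is true in `K` and false in `L`.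
-/

set_option autoImplicit false

namespace Pool.Agent.Results.MP_65f174_lc.NoTransferThreeBlocks

open Pool.Agent.X223.FR

theorem result : ∃ (K L : ValuedField) (πK : K.K) (πL : L.K),
    (K.Equicharacteristic ∧ K.Henselian ∧ K.Nontrivial ∧ K.Uniformizer πK) ∧
    (L.Equicharacteristic ∧ CharZero L.k ∧ L.Henselian ∧ L.Nontrivial ∧ IsZGroup L.Γ ∧
      L.Uniformizer πL) ∧
    (∀ n, (ringStr K.k).Th n = (ringStr L.k).Th n) ∧
    ∀ n, 3 ≤ n → ¬ (K.str πK).Th n ⊆ (L.str πL).Th n := by
  refine ⟨KC, LC, piK, piL, ⟨KC_equi, KC_hens, KC_nontriv, KC_unif⟩,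
    ⟨LC_equi, LC_char, LC_hens, LC_nontriv, LC_zgroup, LC_unif⟩, fun n => rfl, ?_⟩
  intro n hn h
  exact LC_sen (h (show sen ∈ (KC.str piK).Th n from ⟨sen_frag n hn, KC_sen⟩)).2

end Pool.Agent.Results.MP_65f174_lc.NoTransferThreeBlocks
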